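import Pool.Agent.Helper28.SO.Defs
import Pool.Agent.Helper67.SO.Chamber
import Pool.Agent.Helper10.SO.GenericNear

set_option autoImplicit false

/-! SO-6: choosing one row of the weights. -/

namespace Pool.Agent.Helper28.SO

private theorem rs_eps {X : Type*} (T : Finset X) (δ : X → ℝ) (h : ∀ t ∈ T, 0 < δ t) :
    ∃ ε : ℝ, 0 < ε ∧ ε ≤ 1 ∧ ∀ t ∈ T, ε < δ t := by
  classical
  induction T using Finset.induction_on with
  | empty => exact ⟨1, one_pos, le_rfl, fun t ht => absurd ht (Finset.notMem_empty t)⟩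
  | insert b T hb ih =>
    obtain ⟨ε, h1, h2, h3⟩ := ih (fun t ht => h t (Finset.mem_insert_of_mem ht))
    have h4 := h b (Finset.mem_insert_self b T)
    refine ⟨min ε (δ b / 2), lt_min h1 (by linarith), (min_le_left _ _).trans h2, ?_⟩
    intro t ht
    rcases Finset.mem_insert.1 ht with rfl | ht
    · exact lt_of_le_of_lt (min_le_right _ _) (by linarith)
    · exact lt_of_le_of_lt (min_le_left _ _) (h3 t ht)

private theorem rs_gen {n d : ℕ} (w : Fin n → Fin d → ℝ) (hw : Generic w) (J : Finset (Fin n))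
    (φ ψ : Fin n → Fin d) (h : ∑ j ∈ J, w j (φ j) = ∑ j ∈ J, w j (ψ j)) :
    ∀ j ∈ J, φ j = ψ j := by
  classical
  have hw' := Fintype.linearIndependent_iff.1 hw
  have key : ∀ θ : Fin n → Fin d,
      ∑ p : Fin n × Fin d, (if p.1 ∈ J ∧ θ p.1 = p.2 then (1 : ℚ) else 0) • w p.1 p.2 =
        ∑ j ∈ J, w j (θ j) := by
    intro θ
    rw [Fintype.sum_prod_type, ← Finset.sum_filter_add_sum_filter_not Finset.univ (fun j => j ∈ J)]
    have h2 : ∑ x ∈ Finset.univ.filter (fun j => ¬ j ∈ J), ∑ y,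
        (if (x, y).1 ∈ J ∧ θ (x, y).1 = (x, y).2 then (1 : ℚ) else 0) • w (x, y).1 (x, y).2 = 0 := by
      apply Finset.sum_eq_zero
      intro x hx
      apply Finset.sum_eq_zero
      intro y _
      rw [if_neg (fun hh => (Finset.mem_filter.1 hx).2 hh.1), zero_smul]
    rw [h2, add_zero]
    have h3 : Finset.univ.filter (fun j => j ∈ J) = J := by
      ext j
      simp
    rw [h3]
    apply Finset.sum_congr rfl
    intro x hx
    rw [Finset.sum_eq_single (θ x)]
    · rw [if_pos ⟨hx, rfl⟩, one_smul]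
    · intro y _ hy
      rw [if_neg (fun hh => hy hh.2.symm), zero_smul]
    · intro hh
      exact absurd (Finset.mem_univ _) hh
  have h0 := hw' (fun p => (if p.1 ∈ J ∧ φ p.1 = p.2 then (1 : ℚ) else 0) -
    (if p.1 ∈ J ∧ ψ p.1 = p.2 then (1 : ℚ) else 0)) (by
      simp only [sub_smul, Finset.sum_sub_distrib]
      rw [key φ, key ψ, h, sub_self])
  intro j hj
  have h1 := h0 (j, φ j)
  simp only [hj, true_and, if_true] at h1
  by_contra hcon
  rw [if_neg (fun hh => hcon hh.symm)] at h1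
  norm_num at h1

/-- SO-6. (The hypothesis `1 ≤ d` is needed for the existence of `φ`.) -/
theorem row_step {n d : ℕ} (hd : 1 ≤ d) (w : Fin n → Fin d → ℝ) (hw : Generic w) (l : Fin n)
    (C : Finset (Fin d)) (J : Finset (Fin n)) (hl : l ∉ J) (I : Fin n → Finset (Fin d))
    (hI : ∀ j ∈ J, I j ⊆ C) (a : Fin d → ℕ) (htot : ∑ c ∈ C, a c = J.card)
    (hall : ∀ D ⊆ C, (J.filter (fun j => I j ⊆ D)).card ≤ ∑ c ∈ D, a c) (M : ℝ) :
    ∃ w' : Fin n → Fin d → ℝ, (∀ i c, (i ≠ l ∨ c ∉ C) → w' i c = w i c) ∧ Generic w' ∧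
      (∀ c ∈ C, M ≤ w' l c) ∧
      ∃ φ : Fin n → Fin d,
        (∀ j ∈ J, φ j ∈ I j ∧ ∀ c ∈ I j, c ≠ φ j → w' j (φ j) - w' l (φ j) < w' j c - w' l c) ∧
        ∀ c ∈ C, (J.filter (fun j => φ j = c)).card = a c := by
  classical
  have : Nonempty (Fin d) := ⟨⟨0, hd⟩⟩
  obtain ⟨α, φ, hα, hcount⟩ := chamber J C I hI a htot hall w
    (fun φ ψ _ _ h => rs_gen w hw J φ ψ h)
  -- the room in the strict inequalities
  obtain ⟨ε, hε, hε1, hεT⟩ := rs_eps ((J ×ˢ (Finset.univ : Finset (Fin d))).filter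
      (fun p => p.2 ∈ I p.1 ∧ p.2 ≠ φ p.1))
    (fun p => ((w p.1 p.2 - α p.2) - (w p.1 (φ p.1) - α (φ p.1))) / 2) (by
      intro p hp
      rw [Finset.mem_filter, Finset.mem_product] at hp
      have := (hα p.1 hp.1.1).2 p.2 hp.2.1 hp.2.2
      linarith)
  set K : ℝ := ∑ c ∈ C, |α c| + |M| + 1 with hK
  have hKM : ∀ c ∈ C, M + 1 ≤ α c + K := by
    intro c hc
    have h1 : |α c| ≤ ∑ c ∈ C, |α c| :=
      Finset.single_le_sum (f := fun c => |α c|) (fun c _ => abs_nonneg _) hc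
    have h2 := neg_abs_le (α c)
    have h3 := le_abs_self M
    rw [hK]
    linarith
  let f : {p : Fin n × Fin d // p.1 ≠ l ∨ p.2 ∉ C} → ℝ := fun p => w p.1.1 p.1.2
  have hf : LinearIndependent ℚ f :=
    LinearIndependent.comp (v := fun p : Fin n × Fin d => w p.1 p.2) hw Subtype.val
      Subtype.val_injective
  obtain ⟨α', hα', hlin⟩ := exists_generic_near f hf (fun c : {c // c ∈ C} => α c.1 + K) ε hε
  let w' : Fin n → Fin d → ℝ := fun i c => if h : i = l ∧ c ∈ C then α' ⟨c, h.2⟩ else w i c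
  have hw1 : ∀ i c, (i ≠ l ∨ c ∉ C) → w' i c = w i c := by
    intro i c h
    have h2 : ¬ (i = l ∧ c ∈ C) := by
      rintro ⟨h3, h4⟩
      rcases h with h | h
      · exact h h3
      · exact h h4
    exact dif_neg h2
  have hw2 : ∀ c (hc : c ∈ C), w' l c = α' ⟨c, hc⟩ := fun c hc => dif_pos ⟨rfl, hc⟩
  have hb : ∀ c (hc : c ∈ C), α c + K - ε < w' l c ∧ w' l c < α c + K + ε := by
    intro c hc
    have h1 := abs_lt.1 (hα' ⟨c, hc⟩)
    rw [hw2 c hc]
    constructor
    · linarith [h1.1]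
    · linarith [h1.2]
  refine ⟨w', hw1, ?_, ?_, φ, ?_, hcount⟩
  · let e : Fin n × Fin d → {p : Fin n × Fin d // p.1 ≠ l ∨ p.2 ∉ C} ⊕ {c // c ∈ C} := fun p =>
      if h : p.1 = l ∧ p.2 ∈ C then Sum.inr ⟨p.2, h.2⟩ else Sum.inl ⟨p, by
        by_cases h1 : p.1 = l
        · exact Or.inr (fun h2 => h ⟨h1, h2⟩)
        · exact Or.inl h1⟩
    have he : Function.Injective e := by
      intro p q hpq
      by_cases h1 : p.1 = l ∧ p.2 ∈ C
      · by_cases h2 : q.1 = l ∧ q.2 ∈ C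
        · have e1 : e p = Sum.inr ⟨p.2, h1.2⟩ := dif_pos h1
          have e2 : e q = Sum.inr ⟨q.2, h2.2⟩ := dif_pos h2
          rw [e1, e2] at hpq
          have h3 := congrArg Subtype.val (Sum.inr.inj hpq)
          exact Prod.ext (h1.1.trans h2.1.symm) h3
        · have e1 : e p = Sum.inr ⟨p.2, h1.2⟩ := dif_pos h1
          have e2 : e q = Sum.inl ⟨q, _⟩ := dif_neg h2
          rw [e1, e2] at hpq
          exact absurd hpq (by simp)
      · by_cases h2 : q.1 = l ∧ q.2 ∈ C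
        · have e1 : e p = Sum.inl ⟨p, _⟩ := dif_neg h1
          have e2 : e q = Sum.inr ⟨q.2, h2.2⟩ := dif_pos h2
          rw [e1, e2] at hpq
          exact absurd hpq (by simp)
        · have e1 : e p = Sum.inl ⟨p, _⟩ := dif_neg h1
          have e2 : e q = Sum.inl ⟨q, _⟩ := dif_neg h2
          rw [e1, e2] at hpq
          exact congrArg Subtype.val (Sum.inl.inj hpq)
    have h3 := LinearIndependent.comp hlin e he
    have h4 : (Sum.elim f α') ∘ e = fun p : Fin n × Fin d => w' p.1 p.2 := by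
      funext p
      by_cases h1 : p.1 = l ∧ p.2 ∈ C
      · have e1 : e p = Sum.inr ⟨p.2, h1.2⟩ := dif_pos h1
        have e2 : w' p.1 p.2 = α' ⟨p.2, h1.2⟩ := dif_pos h1
        rw [Function.comp_apply, e1, e2]
        rfl
      · have e1 : e p = Sum.inl ⟨p, _⟩ := dif_neg h1
        have e2 : w' p.1 p.2 = w p.1 p.2 := dif_neg h1
        rw [Function.comp_apply, e1, e2]
        rfl
    unfold Generic
    rw [← h4]
    exact h3
  · intro c hc
    have h1 := (hb c hc).1
    have h2 := hKM c hc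
    linarith
  · intro j hj
    obtain ⟨h1, h2⟩ := hα j hj
    refine ⟨h1, ?_⟩
    intro c hc hcφ
    have hjl : j ≠ l := fun h => hl (h ▸ hj)
    rw [hw1 j (φ j) (Or.inl hjl), hw1 j c (Or.inl hjl)]
    have h3 := hb (φ j) (hI j hj h1)
    have h4 := hb c (hI j hj hc)
    have h5 := hεT (j, c) (by
      rw [Finset.mem_filter, Finset.mem_product]
      exact ⟨⟨hj, Finset.mem_univ _⟩, hc, hcφ⟩)
    have h6 : ε < ((w j c - α c) - (w j (φ j) - α (φ j))) / 2 := h5
    linarith [h3.1, h4.2]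

end Pool.Agent.Helper28.SO
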